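import Pool.Agent.T2h14.MS.Dual

/-!
# Murre's conjecture (D) for all Chow-Kunneth decompositions

`𝒱` is a class of smooth projective geometrically irreducible varieties over the field `k` closed
under products (for example all of them), `C` the Chow groups with rational coefficients (in the
form of their formal properties, `IsChowProj`), `H` a Weil cohomology theory (`IsWeilProj`), with the
classical fact that correspondences of degree zero acting as zero on `H^1` act as zero on
`Pic^0 ⊗ ℚ` (`PicardPairs`).

Let `X` be a variety of dimension `d` with the following two properties: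

* the homologically trivial self-correspondences of degree zero of `X` are nilpotent (`NilHom`; this
  is true, by Kimura, if the motive of `X` is finite-dimensional, for instance if `X` is dominated by
  a product of curves);
* the Lefschetz standard conjecture holds for `X` (`LefschetzStandard`).

The theorem: let `q` be **any** Chow-Kunneth decomposition of `X` and `F` the filtration attached to it.

* `F^1 CH^j(X)` is the kernel of the cycle class map for `j ≤ 1` and for `j ≥ d - 1`;
* (D) holds for `X` and `q` if `d ≤ 3`;
* (D) holds for `X` and `q` if the cohomology groups `H^i(X)`, `4 ≤ i ≤ d`, have geometric level at most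
  three: `H^i(X)` is a direct summand, by algebraic correspondences, of a sum of groups
  `H^(i - 2 c)(Z)(-c)` with `i - 2 c ≤ 3` (`SummandOf`); for a fourfold, the condition is that `H^4(X)`
  is a direct summand of a sum of groups `H^2(Z)(-1)` and `H^0(Z)(-2)`;
* in general, `F^1 CH^j(X)` is the kernel of the cycle class map if and only if `q k` acts as zero on the
  homologically trivial part of `CH^(j')(X)` whenever `2 ≤ j'`, `2 j' ≤ k < d` and `k - j' = d - j`, and,
  if `j ≥ 2`, `q i` acts as zero on the homologically trivial part of `CH^j(X)` for `2 j ≤ i ≤ d`. So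
  (D) for `X` is equivalent to (D) in the codimensions `2 ≤ j ≤ d / 2`.

The filtration depends on `q`, and the theorem holds for all `q`, as in the question. The proof: if a
correspondence acts as the identity on `H^i(X)`, then it is invertible on the motive `(X, q i)`, by
nilpotence. So this motive is a direct summand of a Tate twist of `(X, q (2 d - i))`, or of the motives
of the `Z`, and the homologically trivial cycles of codimension at most one on these are well
understood.
-/

open CategoryTheory AlgebraicGeometry

set_option autoImplicit false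

universe u v w

namespace Pool.Agent.Results.MP_583472_ag.AllDecompositionsD

open Pool.Agent.H914 Pool.Agent.W492.BB Pool.Agent.TH133 Pool.Agent.Y107 Pool.Agent.Q73.LS
  Pool.Agent.T2h14.MS

/-- Murre's conjecture (D) for all Chow-Kunneth decompositions `q` of a variety `X` which satisfies
the Lefschetz standard conjecture and nilpotence. -/
theorem result {k : Type u} [Field k] {𝒱 : VarClass k} (C : TheoryData.{u, v, 0} 𝒱 ℚ)
    [IsChowProj C] {K : Type w} [Field K] (H : WeilTheoryData.{u, v, w} C K) [IsWeilProj H]
    (hP : PicardPairs H) (X : 𝒱.Obj) (hN : NilHom H X) (D : C.A X) (hD : C.Deg 1 D)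
    (hL : LefschetzStandard H X D) (q : ℕ → C.A (X.prod X)) (hq : IsCK H X q) :
    (∀ j : ℕ, j ≤ 1 ∨ X.dim ≤ j + 1 →
      ∀ x : C.A X, x ∈ ckFil C q j 1 ↔ C.Deg j x ∧ H.cl x = 0) ∧
    (X.dim ≤ 3 → SatisfiesD H q) ∧
    ((∀ i : ℕ, 4 ≤ i → i ≤ X.dim → SummandOf H X i fun _ c => (i : ℤ) ≤ 2 * c + 3) →
      SatisfiesD H q) ∧
    (∀ j : ℕ, (∀ x : C.A X, x ∈ ckFil C q j 1 ↔ C.Deg j x ∧ H.cl x = 0) ↔
      (∀ k j' : ℕ, 2 ≤ j' → 2 * j' ≤ k → k < X.dim → k + j = j' + X.dim → VanHom H q k j') ∧
      (2 ≤ j → ∀ i, 2 * j ≤ i → i ≤ X.dim → VanHom H q i j)) := by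
  obtain ⟨h2, h3⟩ := all_D (H := H) hP hN hD hL hq
  exact ⟨fun j hj => (h2 j).2 ⟨fun k j' _ _ _ _ => by omega, fun _ i _ _ => by omega⟩,
    fun h4 => h3 fun i h5 h6 => absurd (h5.trans h6) (by omega), h3, h2⟩

end Pool.Agent.Results.MP_583472_ag.AllDecompositionsD
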