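import Pool.Agent.Z15P.Rel.Strong

/-!
# Cycles of small dimension on families over an arbitrary base

Let `X` be a smooth projective complex variety with a Chow-Künneth decomposition. Murre's conjecture (D)
says that the kernels of the projectors which form `F¹` are the homologically trivial cycles, and (B)
restricts the projectors which act on the Chow group of cycles of dimension `l`. We describe all
cycles of dimension `l ≤ s` on families `X → T` over an arbitrary projective variety `T`, whose fibres
are given by forms with few mixed monomials.

Let `T ⊆ ℙ(μ)` be given by forms `G c` over an infinite field `K` (for example `K = ℂ`). Let `X ⊆ T × ℙ(ν)` be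
given by bihomogeneous forms `F a (t, x)` of degrees `d a ≥ 2` in `x`; put `D = ∑ d a`. Assume that there
are disjoint sets `0, …, s` of the variables `x` (blocks), and perhaps further variables, such that each
monomial of `F a` in `x` which is divisible by a variable of the block `i` has degree at most `m` in the
variables of the blocks `i + 1, …, s`. The block `0` has at least `(m + 1) ^ s D` variables, the blocks
`1, …, s` have more, and there are more than `D` variables `x`. The coefficients are arbitrary forms in
`t`, so that the family can have arbitrary bad fibres. For `m = 0` there are no mixed monomials: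
`F a = ∑ j, f_{a, j}(t, x_j, y)`, where `y` are the variables `x` in no block, and it suffices that there
are `D + 1` variables `x_j` for each `j ≥ 1`, `D` variables `x_0` and `D + 1` variables in all.

Theorem: for each `l ≤ s` and each subvariety `W ⊆ T` of dimension at most `l` there is a family `c W` of
linear subspaces of dimension `l - dim W` in the fibres over a generically finite covering of `W`, such
that the cycles `c W` generate `CH_l(X) ⊗ ℚ`.

This means that `CH_l(X) ⊗ ℚ` is the image of `⨁ CH_{l-q}(T) ⊗ ℚ`, `q = 0, …, l`. If `X` and `T` are smooth
complex varieties then `CH_l(X) ⊗ ℚ = ⨁ CH_{l-q}(T) ⊗ ℚ` by the correspondences given by the products of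
the pull-back with the powers of the class of a hyperplane of `ℙ(ν)`. For example, if `T` is a point or a
curve then (B) and (D) hold for the cycles of dimension `l ≤ s` on `X` and all Chow-Künneth
decompositions: for a point since `CH_l(X) ⊗ ℚ` is generated by a linear subspace, for a curve since
the homologically trivial cycles are given by the Jacobian of `T` and since homologically trivial
endomorphisms of the motive of a curve act as zero on it. In general the vanishing of the action of a
projector on `CH_l(X)`, `l ≤ s`, and of the action on the homologically trivial cycles is a statement on
correspondences of `T`. These consequences are not formalised.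

Cycles and rational equivalence are described in terms of function fields (`Pool.Agent.Z15P.Z15.H.cyc`
and the definitions of `Pool/Agent/Z15P/Rel/Defs.lean`, `Pool/Agent/Z15P/Rel/Defs2.lean`).

The proof: the theorem for a single variety over an arbitrary infinite field (the case that `T` is a
point; the main theorem of `Pool/Agent/Z15P/Z15/W/All.lean`) is applied to the generic fibre of the
family over each subvariety `W` of `T`, over a finite extension of the function field of `W` over which
there is a flag of linear subspaces with the required position. Rational equivalence on the generic
fibre gives rational equivalence on the family up to cycles whose image in `T` has a smaller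
dimension.
-/

set_option autoImplicit false

namespace Pool.Agent.Results.MP_583472_ag.FamiliesOfSmallDegree

open MvPolynomial Pool.Agent.Z15P.Rel

/-- The base is given by the forms `G c` of degrees `g c` in the variables `μ`. The family is given by the
bihomogeneous forms `F a` of degrees `e a` in the variables `μ` and `d a ≥ 2` in the variables `ν`. The
variable `i ∈ ν` belongs to the block `b i` if `b i ≤ s`, and to no block if `b i > s`. Each monomial of
`F a` in the variables `ν` which is divisible by a variable of the block `b i` has degree at most `m` in
the variables of the blocks `b i + 1, …, s`. The block `0` has at least `(m + 1) ^ s ∑ d a` variables, the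
blocks `1, …, s` have more, and `ν` has more than `∑ d a` elements. -/
structure Blocks {K : Type} [Field K] {μ ν γ α : Type} [Fintype ν] [Fintype α]
    (G : γ → MvPolynomial μ K) (F : α → MvPolynomial ν (MvPolynomial μ K)) (g : γ → ℕ)
    (e d : α → ℕ) (b : ν → ℕ) (s m : ℕ) : Prop where
  base : ∀ c, (G c).IsHomogeneous (g c)
  hom : ∀ a, (F a).IsHomogeneous (d a)
  coeff : ∀ a n, ((F a).coeff n).IsHomogeneous (e a)
  two_le : ∀ a, 2 ≤ d a
  mixed : ∀ a, ∀ n ∈ (F a).support, ∀ i, n i ≠ 0 → ∑ i' with b i < b i' ∧ b i' ≤ s, n i' ≤ m
  first : (m + 1) ^ s * ∑ a, d a ≤ Nat.card {i // b i = 0}
  others : ∀ j, 1 ≤ j → j ≤ s → (m + 1) ^ s * ∑ a, d a < Nat.card {i // b i = j}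
  total : ∑ a, d a < Nat.card ν

/-- Let the projective variety `T` be given by the forms `G c` over the infinite field `K`, and let
`X ⊆ T × ℙ(ν)` be given by the forms `F a` as above. For each `l ≤ s` there are families `c W` of linear
subspaces of dimension `l - dim W` of `X` over generically finite coverings of `W`, for all subvarieties
`W` of dimension at most `l` of `T`, such that every cycle of dimension `l` on `X` is, up to torsion,
rationally equivalent to a linear combination of the cycles `c W`. -/
theorem result (K : Type) [Field K] [Infinite K] {μ ν γ α : Type} [Fintype μ] [Fintype ν]
    [Fintype α] [Nonempty α] (G : γ → MvPolynomial μ K) (F : α → MvPolynomial ν (MvPolynomial μ K))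
    (g : γ → ℕ) (e d : α → ℕ) (b : ν → ℕ) (s m : ℕ) (h : Blocks G F g e d b s m) :
    ∀ l : ℕ, l ≤ s → OneForEachSubvariety K l G F := by
  classical
  have hc : ∀ j, Nat.card {i // b i = j} = (Finset.univ.filter fun i => b i = j).card := fun j => by
    rw [Nat.card_eq_fintype_card, Fintype.card_subtype]
  have hs : Pool.Agent.Z15P.Z15.W.Sizes b s m (∑ a, d a) := by
    refine ⟨?_, ?_, fun j h1 h2 => ?_⟩
    · have h3 := h.total
      rw [Nat.card_eq_fintype_card] at h3
      exact h3
    · rw [← hc]
      exact h.first
    · rw [← hc]
      exact h.others j h1 h2
  exact x_ONE K μ ν γ α G F g e d b s m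
    ⟨⟨h.base, h.hom, h.coeff⟩, fun a => lt_of_lt_of_le Nat.zero_lt_two (h.two_le a), h.mixed, hs⟩
    ⟨Classical.arbitrary α, h.two_le _⟩

end Pool.Agent.Results.MP_583472_ag.FamiliesOfSmallDegree
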