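import Pool.Agent.T2h14.MS.Sec

/-!
# Murre's conjecture (D) for Lefschetz sections and covers of any dimension

`𝒱` is a class of smooth projective geometrically irreducible varieties over the field `k` closed
under products (for example all of them), `C` the Chow groups with rational coefficients (in the
form of their formal properties, `IsChowProj`), `H` a Weil cohomology theory (`IsWeilProj`), with the
classical fact that correspondences acting as zero on `H^1` act as zero on `Pic^0 ⊗ ℚ`
(`PicardFaithful`).

Let `f : X → Y` be a morphism, `dim Y = dim X + r`, such that `f^* : H^i(Y) → H^i(X)` is onto for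
`i < d = dim X` (`OntoBelow`) and `f_* [X] = c D^r`, `c ≠ 0`, for a divisor class `D`; for instance the
inclusion of a smooth complete intersection of `r` ample divisors proportional to `D` (Lefschetz),
or, with `r = 0`, a covering of degree `c` branched along ample divisors. Let `π` be a
Chow-Kunneth decomposition of `Y` satisfying motivic hard Lefschetz for `D` (it exists, for instance,
if `Y` is an abelian variety: Deninger-Murre, Kunnemann).

The theorem: `X` has a Chow-Kunneth decomposition `p` such that `f^*` is an isomorphism of Chow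
motives `h^i(Y) ≅ h^i(X)` for `i < d`. Let `q` be `p`, or any Chow-Kunneth decomposition of `X` if the
homologically trivial self-correspondences of degree zero of `X` are nilpotent (`NilHom`; for instance
if `X` is dominated by a product of curves, or more generally if its motive is finite-dimensional).
Let `F` be the filtration attached to `q`. In dimension `d` arbitrary:

* `F^1 CH^j(X)` is the kernel of the cycle class map for `j ≤ 1` and for `j ≥ d - 1` (hence for all `j`
  if `d ≤ 3`, and for all `j ≠ 2` if `d = 4`);
* for all `j`, `F^1 CH^j(X)` is the kernel of the cycle class map if and only if: `π k` acts as zero on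
  the homologically trivial part of `CH^(j')(Y)` whenever `2 ≤ j'`, `2 j' ≤ k < d` and `k - j' = d - j`;
  and, if `j ≥ 2`, `π i` acts as zero on the homologically trivial part of `CH^j(Y)` for
  `2 j ≤ i < d`, and, if `2 j ≤ d`, `q d` acts as zero on the homologically trivial part of
  `CH^j(X)`. If `2 j > d` this is a condition on `Y` only, and it follows from Murre's conjecture (D)
  for `Y` (in codimensions less than `d / 2`).
-/

open CategoryTheory AlgebraicGeometry

set_option autoImplicit false

universe u v w

namespace Pool.Agent.Results.MP_583472_ag.SectionsD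

open Pool.Agent.H914 Pool.Agent.W492.BB Pool.Agent.TH133 Pool.Agent.Y107 Pool.Agent.Q73.LS
  Pool.Agent.T2h14.MS

/-- Murre's conjecture (D) for Lefschetz sections and covers `X` of any dimension. -/
theorem result {k : Type u} [Field k] {𝒱 : VarClass k} (C : TheoryData.{u, v, 0} 𝒱 ℚ)
    [IsChowProj C] {K : Type w} [Field K] (H : WeilTheoryData.{u, v, w} C K) [IsWeilProj H]
    (hP : PicardFaithful H) (X Y : 𝒱.Obj) (f : X ⟶ Y) (r : ℕ) (hr : Y.dim = X.dim + r)
    (hf : OntoBelow H f) (D : C.A Y) (hD : C.Deg 1 D) (c : ℚ) (hc : c ≠ 0)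
    (hX : C.push f 1 = c • D ^ r) (π : ℕ → C.A (Y.prod Y)) (hπ : IsCK H Y π)
    (hM : MotivicLefschetz C (C.mulCorr D) π) :
    ∃ p, IsCK H X p ∧ PullIso C f π p ∧ ∀ q, IsCK H X q → (q = p ∨ NilHom H X) →
      (∀ j : ℕ, j ≤ 1 ∨ X.dim ≤ j + 1 →
        ∀ x : C.A X, x ∈ ckFil C q j 1 ↔ C.Deg j x ∧ H.cl x = 0) ∧
      (∀ j : ℕ, (∀ x : C.A X, x ∈ ckFil C q j 1 ↔ C.Deg j x ∧ H.cl x = 0) ↔
        (∀ k j' : ℕ, 2 ≤ j' → 2 * j' ≤ k → k < X.dim → k + j = j' + X.dim →
          VanHom H π k j') ∧
        (2 ≤ j → ∀ i, 2 * j ≤ i → i < X.dim → VanHom H π i j) ∧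
        (2 ≤ j → 2 * j ≤ X.dim → VanHom H q X.dim j)) := by
  obtain ⟨p, hp, hiso, h⟩ := main (H := H) hP hD hc hr hX hf hπ hM
  refine ⟨p, hp, hiso, fun q hq hqp => ?_⟩
  obtain ⟨-, -, h3⟩ := h q hq hqp
  refine ⟨fun j hj => (h3 j).2 ⟨fun k j' _ _ _ _ => by omega, fun _ i _ _ => by omega,
    fun _ _ => by omega⟩, h3⟩

end Pool.Agent.Results.MP_583472_ag.SectionsD
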